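import Pool.Agent.Helper41.LD.Defs

/-!
# Project LD, block WA: integrals of one Haar function, the martingale
-/

set_option autoImplicit false

namespace Pool.Agent.Helper33.LD

open Set MeasureTheory Filter Topology
open Pool.Agent.Helper41.LD

/-! ## The functions `ind` -/

theorem ind_nonneg (k i : ℕ) (t : ℝ) : 0 ≤ ind k i t := by
  unfold ind
  split_ifs <;> norm_num

theorem ind_le_one (k i : ℕ) (t : ℝ) : ind k i t ≤ 1 := by
  unfold ind
  split_ifs <;> norm_num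

theorem measurable_ind (k i : ℕ) : Measurable (ind k i) := by
  unfold ind
  refine Measurable.ite ?_ measurable_const measurable_const
  exact (Int.measurable_floor.comp (measurable_const.mul measurable_fract)) (measurableSet_singleton _)

theorem periodic_ind (k i : ℕ) : Function.Periodic (ind k i) 1 := by
  intro t
  unfold ind
  rw [Int.fract_add_one]

theorem haar_abs (k i : ℕ) (t : ℝ) : |haar k i t| ≤ 1 := by
  unfold haar
  rw [abs_le]
  constructor <;> linarith [ind_nonneg (k + 1) (2 * i) t, ind_nonneg (k + 1) (2 * i + 1) t,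
    ind_le_one (k + 1) (2 * i) t, ind_le_one (k + 1) (2 * i + 1) t]

theorem measurable_haar (k i : ℕ) : Measurable (haar k i) :=
  (measurable_ind _ _).sub (measurable_ind _ _)

theorem periodic_haar (k i : ℕ) : Function.Periodic (haar k i) 1 := by
  intro t
  unfold haar
  rw [periodic_ind, periodic_ind]

theorem ii_of_bdd {f : ℝ → ℝ} (hf : Measurable f) (hb : ∀ t, |f t| ≤ 1) (a b : ℝ) :
    IntervalIntegrable f volume a b := by
  refine (intervalIntegrable_const (c := (1 : ℝ))).mono_fun hf.aestronglyMeasurable ?_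
  refine Eventually.of_forall fun t => ?_
  have h := hb t
  simpa [Real.norm_eq_abs] using h

theorem ii_ind (k i : ℕ) (a b : ℝ) : IntervalIntegrable (ind k i) volume a b :=
  ii_of_bdd (measurable_ind k i) (fun t => by
    rw [abs_of_nonneg (ind_nonneg k i t)]
    exact ind_le_one k i t) a b

theorem ii_haar (k i : ℕ) (a b : ℝ) : IntervalIntegrable (haar k i) volume a b :=
  ii_of_bdd (measurable_haar k i) (haar_abs k i) a b

/-- the primitive of `ind` on `[0, 1]` -/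
theorem int_ind_unit (k i : ℕ) {y : ℝ} (hy0 : 0 ≤ y) (hy1 : y ≤ 1) :
    ∫ t in (0:ℝ)..y, ind k i t = min (max (y - i * (1 / 2) ^ k) 0) ((1 / 2) ^ k) := by
  set w : ℝ := (1 / 2) ^ k with hw
  have hw0 : 0 < w := by positivity
  have h2w : (2 : ℝ) ^ k * w = 1 := by rw [hw, ← mul_pow]; norm_num
  have h1 : ∫ t in (0:ℝ)..y, ind k i t = ∫ t in (0:ℝ)..y, (Ico ((i:ℝ) * w) ((i + 1) * w)).indicator (fun _ => (1:ℝ)) t := by
    rw [intervalIntegral.integral_of_le hy0, intervalIntegral.integral_of_le hy0,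
      integral_Ioc_eq_integral_Ioo, integral_Ioc_eq_integral_Ioo]
    refine setIntegral_congr_fun measurableSet_Ioo fun t ht => ?_
    have hfr : Int.fract t = t := Int.fract_eq_self.2 ⟨ht.1.le, lt_of_lt_of_le ht.2 hy1⟩
    unfold ind
    rw [hfr]
    by_cases h : t ∈ Ico ((i:ℝ) * w) ((i + 1) * w)
    · rw [indicator_of_mem h, if_pos]
      rw [Int.floor_eq_iff]
      have e1 : (2 : ℝ) ^ k * ((i:ℝ) * w) = i := by rw [mul_left_comm, h2w, mul_one]
      have e2 : (2 : ℝ) ^ k * (((i:ℝ) + 1) * w) = i + 1 := by rw [mul_left_comm, h2w, mul_one]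
      have h3 := mul_le_mul_of_nonneg_left h.1 (show (0:ℝ) ≤ 2 ^ k by positivity)
      have h4 := mul_lt_mul_of_pos_left h.2 (show (0:ℝ) < 2 ^ k by positivity)
      rw [e1] at h3
      rw [e2] at h4
      constructor
      · push_cast
        exact h3
      · push_cast
        exact h4
    · rw [indicator_of_notMem h, if_neg]
      intro h2
      apply h
      rw [Int.floor_eq_iff] at h2
      push_cast at h2
      have e3 : ((2 : ℝ) ^ k * t) * w = t := by rw [mul_right_comm, h2w, one_mul]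
      constructor
      · have := mul_le_mul_of_nonneg_right h2.1 hw0.le
        rwa [e3] at this
      · have := mul_lt_mul_of_pos_right h2.2 hw0
        rwa [e3] at this
  rw [h1, intervalIntegral.integral_of_le hy0, integral_indicator measurableSet_Ico,
    Measure.restrict_restrict measurableSet_Ico, setIntegral_const, smul_eq_mul, mul_one, Measure.real]
  have hi0 : (0:ℝ) ≤ i * w := mul_nonneg (Nat.cast_nonneg i) hw0.le
  have hmeas : volume (Ico ((i:ℝ) * w) ((i + 1) * w) ∩ Ioc 0 y) =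
      volume (Ioc (max ((i:ℝ) * w) 0) (min ((i + 1) * w) y)) := by
    rw [← Ioc_inter_Ioc]
    refine measure_congr ?_
    refine (Ico_ae_eq_Ioc).inter (ae_eq_refl _)
  rw [hmeas, Real.volume_Ioc, max_eq_left hi0]
  rcases le_total ((i:ℝ) * w) y with h | h
  · rw [max_eq_left (by linarith : (0:ℝ) ≤ y - i * w)]
    rw [ENNReal.toReal_ofReal]
    · rcases le_total (((i:ℝ) + 1) * w) y with h' | h'
      · rw [min_eq_left h', min_eq_right (by linarith)]
        ring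
      · rw [min_eq_right h', min_eq_left (by linarith)]
    · rw [sub_nonneg, le_min_iff]
      exact ⟨by nlinarith, h⟩
  · rw [max_eq_right (by linarith : y - i * w ≤ 0), min_eq_left hw0.le]
    rw [ENNReal.ofReal_of_nonpos]
    · simp
    · have := min_le_right (((i:ℝ) + 1) * w) y
      linarith

theorem int_ind_period (k i : ℕ) : ∫ t in (0:ℝ)..1, ind k i t ≤ (1 / 2) ^ k := by
  rw [int_ind_unit k i zero_le_one le_rfl]
  exact min_le_right _ _

/-- primitives of periodic functions of mean zero -/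
theorem int_fract {f : ℝ → ℝ} (hf : Function.Periodic f 1) (hi : ∀ a b, IntervalIntegrable f volume a b)
    (h0 : ∫ t in (0:ℝ)..1, f t = 0) (y : ℝ) : ∫ t in (0:ℝ)..y, f t = ∫ t in (0:ℝ)..(Int.fract y), f t := by
  have h1 := hf.intervalIntegral_add_zsmul_eq ⌊y⌋ 0 hi
  rw [zero_add, zero_add, h0, smul_zero] at h1
  have h2 : ∫ t in (⌊y⌋:ℝ)..y, f t = ∫ t in (0:ℝ)..(Int.fract y), f t := by
    have h3 : ∫ t in (0:ℝ)..(Int.fract y), f (t + ⌊y⌋) = ∫ t in (0 + (⌊y⌋:ℝ))..(Int.fract y + ⌊y⌋), f t :=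
      intervalIntegral.integral_comp_add_right f (⌊y⌋:ℝ)
    rw [zero_add, Int.fract_add_floor] at h3
    rw [← h3]
    refine intervalIntegral.integral_congr fun t _ => ?_
    have := hf.int_mul ⌊y⌋ t
    rw [mul_one] at this
    exact this
  rw [← intervalIntegral.integral_add_adjacent_intervals (hi 0 ⌊y⌋) (hi ⌊y⌋ y), h2]
  have h4 : ∫ t in (0:ℝ)..(⌊y⌋:ℝ), f t = 0 := by
    simpa using h1
  rw [h4, zero_add]

theorem int_haar_unit (k i : ℕ) {y : ℝ} (hy0 : 0 ≤ y) (hy1 : y ≤ 1) :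
    0 ≤ ∫ t in (0:ℝ)..y, haar k i t ∧ ∫ t in (0:ℝ)..y, haar k i t ≤ (1 / 2) ^ (k + 1) := by
  unfold haar
  rw [intervalIntegral.integral_sub (ii_ind _ _ _ _) (ii_ind _ _ _ _), int_ind_unit _ _ hy0 hy1,
    int_ind_unit _ _ hy0 hy1]
  set w : ℝ := (1 / 2) ^ (k + 1) with hw
  have hw0 : 0 < w := by positivity
  push_cast
  set z : ℝ := y - 2 * i * w with hz
  have e1 : y - (2 * (i:ℝ) + 1) * w = z - w := by rw [hz]; ring
  rw [e1]
  rcases le_total z 0 with h | h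
  · rw [max_eq_right h, max_eq_right (by linarith : z - w ≤ 0), min_eq_left hw0.le]
    constructor <;> linarith
  · rw [max_eq_left h]
    rcases le_total z w with h' | h'
    · rw [min_eq_left h', max_eq_right (by linarith : z - w ≤ 0), min_eq_left hw0.le]
      constructor <;> linarith
    · rw [min_eq_right h', max_eq_left (by linarith : 0 ≤ z - w)]
      constructor
      · have := min_le_right (z - w) w
        linarith
      · have : 0 ≤ min (z - w) w := le_min (by linarith) hw0.le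
        linarith

theorem int_haar_period (k i : ℕ) : ∫ t in (0:ℝ)..1, haar k i t = 0 := by
  unfold haar
  rw [intervalIntegral.integral_sub (ii_ind _ _ _ _) (ii_ind _ _ _ _), int_ind_unit _ _ zero_le_one le_rfl,
    int_ind_unit _ _ zero_le_one le_rfl]
  set w : ℝ := (1 / 2) ^ (k + 1) with hw
  have hw0 : 0 < w := by positivity
  have h2w : (2 : ℝ) ^ (k + 1) * w = 1 := by rw [hw, ← mul_pow]; norm_num
  -- `1` is a multiple of `2 w`
  have e : (1:ℝ) = 2 * (2 ^ k) * w := by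
    rw [← h2w]
    ring
  push_cast
  have e1 : (1:ℝ) - 2 * i * w = 2 * ((2:ℝ) ^ k - i) * w := by
    nth_rewrite 1 [e]
    ring
  have e2 : (1:ℝ) - (2 * i + 1) * w = (2 * ((2:ℝ) ^ k - i) - 1) * w := by
    nth_rewrite 1 [e]
    ring
  rw [e1, e2]
  rcases le_or_gt (2 ^ k) i with h | h
  · have h' : (2:ℝ) ^ k ≤ i := by exact_mod_cast h
    have n1 : 2 * ((2:ℝ) ^ k - i) * w ≤ 0 := by nlinarith
    have n2 : (2 * ((2:ℝ) ^ k - i) - 1) * w ≤ 0 := by nlinarith
    rw [max_eq_right n1, max_eq_right n2, sub_self]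
  · have h' : (i:ℝ) + 1 ≤ 2 ^ k := by exact_mod_cast h
    have n1 : w ≤ 2 * ((2:ℝ) ^ k - i) * w := by nlinarith
    have n2 : w ≤ (2 * ((2:ℝ) ^ k - i) - 1) * w := by nlinarith
    rw [max_eq_left (hw0.le.trans n1), max_eq_left (hw0.le.trans n2), min_eq_right n1, min_eq_right n2, sub_self]

theorem int_haar_all (k i : ℕ) (y : ℝ) :
    0 ≤ ∫ t in (0:ℝ)..y, haar k i t ∧ ∫ t in (0:ℝ)..y, haar k i t ≤ (1 / 2) ^ (k + 1) := by
  rw [int_fract (periodic_haar k i) (ii_haar k i) (int_haar_period k i)]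
  exact int_haar_unit k i (Int.fract_nonneg y) (Int.fract_lt_one y).le

/-- primitive of a Haar function is at most half the length of the interval -/
theorem int_haar_le {α : ℝ} (hα : 0 < α) (k i : ℕ) (c a b : ℝ) (hab : a ≤ b) :
    |∫ x in a..b, haar k i (α * x + c)| ≤ (1 / 2) ^ k / α := by
  rw [intervalIntegral.integral_comp_mul_add (haar k i) hα.ne' c, smul_eq_mul, abs_mul,
    abs_of_pos (inv_pos.2 hα), div_eq_inv_mul]
  refine mul_le_mul_of_nonneg_left ?_ (inv_pos.2 hα).le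
  have h1 := intervalIntegral.integral_interval_sub_left (ii_haar k i 0 (α * b + c)) (ii_haar k i 0 (α * a + c))
  rw [← h1]
  obtain ⟨p1, p2⟩ := int_haar_all k i (α * b + c)
  obtain ⟨q1, q2⟩ := int_haar_all k i (α * a + c)
  have h3 : (1 / 2 : ℝ) ^ (k + 1) ≤ (1 / 2) ^ k := by
    rw [pow_succ]
    have : (0:ℝ) < (1 / 2) ^ k := by positivity
    linarith
  rw [abs_le]
  constructor <;> linarith

theorem int_ind_le {α : ℝ} (hα : 0 < α) (k i : ℕ) (c a b : ℝ) (hab : a ≤ b) :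
    ∫ x in a..b, ind k i (α * x + c) ≤ (α * (b - a) + 1) * (1 / 2) ^ k / α := by
  rw [intervalIntegral.integral_comp_mul_add (ind k i) hα.ne' c, smul_eq_mul, div_eq_inv_mul]
  refine mul_le_mul_of_nonneg_left ?_ (inv_pos.2 hα).le
  set y₁ := α * a + c with hy₁
  set y₂ := α * b + c with hy₂
  have hlen : y₂ - y₁ = α * (b - a) := by rw [hy₁, hy₂]; ring
  have h0 : 0 ≤ y₂ - y₁ := by
    rw [hlen]
    exact mul_nonneg hα.le (by linarith)
  set n : ℕ := ⌈y₂ - y₁⌉₊ with hn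
  have hn1 : y₂ - y₁ ≤ n := Nat.le_ceil _
  have hn2 : (n:ℝ) < y₂ - y₁ + 1 := Nat.ceil_lt_add_one h0
  have h1 : ∫ t in y₁..y₂, ind k i t ≤ ∫ t in y₁..(y₁ + n), ind k i t := by
    rw [← intervalIntegral.integral_add_adjacent_intervals (ii_ind k i y₁ y₂) (ii_ind k i y₂ (y₁ + n))]
    have : 0 ≤ ∫ t in y₂..(y₁ + n), ind k i t :=
      intervalIntegral.integral_nonneg (by linarith) fun t _ => ind_nonneg k i t
    linarith
  refine h1.trans ?_
  have h2 := (periodic_ind k i).intervalIntegral_add_zsmul_eq (n:ℤ) y₁ (ii_ind k i)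
  have h3 : y₁ + (n:ℤ) • (1:ℝ) = y₁ + n := by simp
  rw [h3] at h2
  rw [h2, (periodic_ind k i).intervalIntegral_add_eq y₁ 0, zero_add, ← hlen]
  have h4 := int_ind_period k i
  have h5 : 0 ≤ ∫ t in (0:ℝ)..1, ind k i t :=
    intervalIntegral.integral_nonneg zero_le_one fun t _ => ind_nonneg k i t
  simp only [zsmul_eq_mul, Int.cast_natCast]
  calc (n:ℝ) * ∫ t in (0:ℝ)..1, ind k i t ≤ (y₂ - y₁ + 1) * ∫ t in (0:ℝ)..1, ind k i t :=
        mul_le_mul_of_nonneg_right hn2.le h5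
    _ ≤ (y₂ - y₁ + 1) * (1 / 2) ^ k := mul_le_mul_of_nonneg_left h4 (by linarith)

/-! ## Averages -/

variable {θ : ℝ} {c : ℕ → ℝ}

theorem A_le_one (k i j : ℕ) {a ℓ : ℝ} (hℓ : 0 < ℓ) : |A θ c k i j a ℓ| ≤ 1 := by
  unfold A av
  rw [abs_div, abs_of_pos hℓ, div_le_one hℓ]
  have h := intervalIntegral.norm_integral_le_of_norm_le_const (a := a) (b := a + ℓ) (C := 1)
    (f := fun x => haar k i (u θ c j x)) (fun x _ => haar_abs k i _)
  rw [Real.norm_eq_abs, add_sub_cancel_left, abs_of_pos hℓ, one_mul] at h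
  exact h

theorem len_pos {n : ℕ} (hθ : 1 < θ) {ℓ : ℝ} (hw : 1 ≤ θ ^ n * ℓ) : 0 < ℓ := by
  by_contra h
  push Not at h
  have h1 : 0 < θ ^ n := pow_pos (by linarith) n
  have := mul_nonneg h1.le (neg_nonneg.2 h)
  linarith

theorem A_le (hθ : 1 < θ) (k i : ℕ) {n j : ℕ} (hj : n ≤ j) {a ℓ : ℝ} (hw : 1 ≤ θ ^ n * ℓ) :
    |A θ c k i j a ℓ| ≤ (1 / 2) ^ k * θ⁻¹ ^ (j - n) := by
  have hℓ := len_pos hθ hw
  have hθ0 : 0 < θ := by linarith
  have hp : 0 < θ ^ j := pow_pos hθ0 j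
  unfold A av
  have h1 := int_haar_le hp k i (c j) a (a + ℓ) (by linarith)
  have e : ∀ x, u θ c j x = θ ^ j * x + c j := by
    intro x
    unfold u
    ring
  simp only [e]
  rw [abs_div, abs_of_pos hℓ, div_le_iff₀ hℓ]
  refine h1.trans ?_
  have e2 : θ ^ j = θ ^ (j - n) * θ ^ n := by rw [← pow_add, Nat.sub_add_cancel hj]
  rw [div_le_iff₀ hp, e2, inv_pow]
  have hq : 0 < θ ^ (j - n) := pow_pos hθ0 _
  have e3 : (1 / 2 : ℝ) ^ k * (θ ^ (j - n))⁻¹ * ℓ * (θ ^ (j - n) * θ ^ n) = (1 / 2) ^ k * (θ ^ n * ℓ) := by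
    field_simp
  rw [e3]
  have h4 : (0:ℝ) < (1 / 2) ^ k := by positivity
  nlinarith

theorem exists_time (hθ : 1 < θ) {ℓ : ℝ} (hℓ : 0 < ℓ) : ∃ n : ℕ, 1 ≤ θ ^ n * ℓ := by
  obtain ⟨n, hn⟩ := pow_unbounded_of_one_lt (1 / ℓ) hθ
  refine ⟨n, ?_⟩
  rw [div_lt_iff₀ hℓ] at hn
  exact hn.le

theorem summable_A (hθ : 1 < θ) (k i : ℕ) (a : ℝ) {ℓ : ℝ} (hℓ : 0 < ℓ) : Summable fun j => A θ c k i j a ℓ := by
  obtain ⟨n, hn⟩ := exists_time hθ hℓ
  rw [← summable_nat_add_iff n]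
  have hg : Summable fun j : ℕ => (1 / 2 : ℝ) ^ k * θ⁻¹ ^ j :=
    (summable_geometric_of_lt_one (inv_nonneg.2 (by linarith)) (inv_lt_one_of_one_lt₀ hθ)).mul_left _
  refine Summable.of_norm_bounded hg fun j => ?_
  have := A_le (c := c) hθ k i (Nat.le_add_left n j) (a := a) hn
  rwa [Nat.add_sub_cancel] at this

/-- the tail of the martingale -/
theorem M_tail (hθ : 1 < θ) (k i : ℕ) {n m : ℕ} (hm : n ≤ m) {a ℓ : ℝ} (hw : 1 ≤ θ ^ n * ℓ) :
    |M θ c k i a ℓ - ∑ j ∈ Finset.range m, A θ c k i j a ℓ| ≤ (1 / 2) ^ k * θ⁻¹ ^ (m - n) * (θ / (θ - 1)) := by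
  have hℓ := len_pos hθ hw
  have hs := summable_A (c := c) hθ k i a hℓ
  unfold M
  rw [← hs.sum_add_tsum_nat_add m, add_sub_cancel_left]
  have h0 : 0 ≤ θ⁻¹ := inv_nonneg.2 (by linarith)
  have h1 : θ⁻¹ < 1 := inv_lt_one_of_one_lt₀ hθ
  have hb : ∀ j : ℕ, ‖A θ c k i (j + m) a ℓ‖ ≤ (1 / 2) ^ k * θ⁻¹ ^ (m - n) * θ⁻¹ ^ j := by
    intro j
    have h2 := A_le (c := c) hθ k i (hm.trans (Nat.le_add_left m j)) (a := a) hw
    rw [Real.norm_eq_abs]
    refine h2.trans (le_of_eq ?_)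
    rw [Nat.add_sub_assoc hm, pow_add]
    ring
  have hg := (hasSum_geometric_of_lt_one h0 h1).mul_left ((1 / 2 : ℝ) ^ k * θ⁻¹ ^ (m - n))
  have h3 := tsum_of_norm_bounded hg hb
  rw [Real.norm_eq_abs] at h3
  refine h3.trans (le_of_eq ?_)
  congr 1
  have : θ ≠ 0 := by linarith
  have h4 : θ - 1 ≠ 0 := by linarith
  have h5 : 1 - θ⁻¹ ≠ 0 := by linarith
  field_simp

theorem M_le (hθ : 1 < θ) (k i : ℕ) {n : ℕ} {a ℓ : ℝ} (hw : 1 ≤ θ ^ n * ℓ) : |M θ c k i a ℓ| ≤ n + θ / (θ - 1) := by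
  have hℓ := len_pos hθ hw
  have h1 := M_tail (c := c) hθ k i (le_refl n) (a := a) hw
  rw [Nat.sub_self, pow_zero, mul_one] at h1
  have h2 : |∑ j ∈ Finset.range n, A θ c k i j a ℓ| ≤ n := by
    refine (Finset.abs_sum_le_sum_abs _ _).trans ?_
    refine (Finset.sum_le_sum fun j _ => A_le_one k i j hℓ).trans ?_
    simp
  have h3 : (1 / 2 : ℝ) ^ k * (θ / (θ - 1)) ≤ θ / (θ - 1) := by
    have h4 : 0 ≤ θ / (θ - 1) := div_nonneg (by linarith) (by linarith)
    have h5 : (1 / 2 : ℝ) ^ k ≤ 1 := pow_le_one₀ (by norm_num) (by norm_num)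
    calc (1 / 2 : ℝ) ^ k * (θ / (θ - 1)) ≤ 1 * (θ / (θ - 1)) := mul_le_mul_of_nonneg_right h5 h4
      _ = _ := one_mul _
  have h6 : M θ c k i a ℓ = (M θ c k i a ℓ - ∑ j ∈ Finset.range n, A θ c k i j a ℓ) +
      ∑ j ∈ Finset.range n, A θ c k i j a ℓ := by ring
  rw [h6]
  refine (abs_add_le _ _).trans ?_
  linarith

theorem ii_u (k i j : ℕ) (a b : ℝ) : IntervalIntegrable (fun x => haar k i (u θ c j x)) volume a b := by
  refine ii_of_bdd ((measurable_haar k i).comp ?_) (fun t => haar_abs k i _) a b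
  unfold u
  fun_prop

theorem A_children (k i j : ℕ) (a : ℝ) {ℓ : ℝ} (hℓ : 0 < ℓ) {B : ℕ} (hB : 1 ≤ B) :
    ∑ b ∈ Finset.range B, A θ c k i j (a + b * (ℓ / B)) (ℓ / B) = B * A θ c k i j a ℓ := by
  have hB0 : (0:ℝ) < B := by exact_mod_cast hB
  unfold A av
  rw [← Finset.sum_div]
  have h1 := intervalIntegral.sum_integral_adjacent_intervals (μ := volume)
    (f := fun x => haar k i (u θ c j x)) (a := fun b : ℕ => a + b * (ℓ / B)) (n := B)
    (fun b _ => ii_u k i j _ _)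
  have h2 : ∑ b ∈ Finset.range B, ∫ x in (a + b * (ℓ / B))..(a + b * (ℓ / B) + ℓ / B), haar k i (u θ c j x) =
      ∫ x in a..(a + ℓ), haar k i (u θ c j x) := by
    have e1 : a + (0:ℕ) * (ℓ / B) = a := by simp
    have e2 : a + B * (ℓ / B) = a + ℓ := by
      rw [mul_div_cancel₀ _ hB0.ne']
    rw [e1, e2] at h1
    rw [← h1]
    refine Finset.sum_congr rfl fun b _ => ?_
    congr 1
    push_cast
    ring
  rw [h2]
  field_simp

theorem M_children (hθ : 1 < θ) (k i : ℕ) (a : ℝ) {ℓ : ℝ} (hℓ : 0 < ℓ) {B : ℕ} (hB : 1 ≤ B) :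
    ∑ b ∈ Finset.range B, M θ c k i (a + b * (ℓ / B)) (ℓ / B) = B * M θ c k i a ℓ := by
  have hB0 : (0:ℝ) < B := by exact_mod_cast hB
  unfold M
  rw [← Summable.tsum_finsetSum fun b _ => summable_A hθ k i _ (div_pos hℓ hB0), ← tsum_mul_left]
  exact tsum_congr fun j => A_children k i j a hℓ hB

/-! ## Windows without boundaries -/

theorem floor_coarse {K m : ℕ} (hm : m ≤ K) {s t : ℝ} (h : ⌊(2 : ℝ) ^ K * s⌋ = ⌊(2 : ℝ) ^ K * t⌋) :
    ⌊(2 : ℝ) ^ m * s⌋ = ⌊(2 : ℝ) ^ m * t⌋ := by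
  set q : ℤ := ⌊(2 : ℝ) ^ m * t⌋ with hq
  obtain ⟨d, rfl⟩ := Nat.exists_eq_add_of_le hm
  have hd : (0:ℝ) < 2 ^ d := by positivity
  have h1 : (q:ℝ) ≤ 2 ^ m * t := Int.floor_le _
  have h2 : (2:ℝ) ^ m * t < q + 1 := Int.lt_floor_add_one _
  have e1 : (2:ℝ) ^ (m + d) * t = 2 ^ d * (2 ^ m * t) := by rw [pow_add]; ring
  have e2 : (2:ℝ) ^ (m + d) * s = 2 ^ d * (2 ^ m * s) := by rw [pow_add]; ring
  have h3 : 2 ^ d * q ≤ ⌊(2 : ℝ) ^ (m + d) * t⌋ := by
    rw [Int.le_floor, e1]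
    push_cast
    exact mul_le_mul_of_nonneg_left h1 hd.le
  have h4 : ⌊(2 : ℝ) ^ (m + d) * t⌋ < 2 ^ d * (q + 1) := by
    rw [Int.floor_lt, e1]
    push_cast
    exact mul_lt_mul_of_pos_left h2 hd
  rw [← h] at h3 h4
  rw [Int.le_floor, e2] at h3
  rw [Int.floor_lt, e2] at h4
  push_cast at h3 h4
  rw [Int.floor_eq_iff]
  exact ⟨le_of_mul_le_mul_left h3 hd, lt_of_mul_lt_mul_left h4 hd.le⟩

theorem ind_coarse {K k : ℕ} (hk : k ≤ K) (i : ℕ) {s t : ℝ} (h : ⌊(2 : ℝ) ^ K * s⌋ = ⌊(2 : ℝ) ^ K * t⌋) :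
    ind k i s = ind k i t := by
  have h0 : ⌊s⌋ = ⌊t⌋ := by
    have := floor_coarse (Nat.zero_le K) h
    simpa using this
  have h1 := floor_coarse hk h
  have e : ∀ x : ℝ, ⌊(2 : ℝ) ^ k * Int.fract x⌋ = ⌊(2 : ℝ) ^ k * x⌋ - 2 ^ k * ⌊x⌋ := by
    intro x
    rw [Int.fract, mul_sub]
    have : (2 : ℝ) ^ k * (⌊x⌋ : ℝ) = ((2 ^ k * ⌊x⌋ : ℤ) : ℝ) := by push_cast; ring
    rw [this, Int.floor_sub_intCast]
  unfold ind
  rw [e s, e t, h0, h1]

theorem haar_coarse {K k : ℕ} (hk : k < K) (i : ℕ) {s t : ℝ} (h : ⌊(2 : ℝ) ^ K * s⌋ = ⌊(2 : ℝ) ^ K * t⌋) :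
    haar k i s = haar k i t := by
  unfold haar
  rw [ind_coarse hk _ h, ind_coarse hk _ h]

/-- under `NB` the Haar functions of level `< K` are constant on the window at the times before `n - r` -/
theorem haar_const {n r K : ℕ} {a ℓ : ℝ} (h : NB θ c n r K a ℓ) {k : ℕ} (hk : k < K) (i : ℕ) {j : ℕ} (hj : j + r < n)
    {x : ℝ} (hx : x ∈ Icc a (a + ℓ)) : haar k i (u θ c j x) = haar k i (u θ c j a) :=
  haar_coarse hk i (h j hj x hx)

theorem A_const {n r K : ℕ} {a ℓ : ℝ} (h : NB θ c n r K a ℓ) {k : ℕ} (hk : k < K) (i : ℕ) {j : ℕ} (hj : j + r < n)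
    {a' ℓ' : ℝ} (ha : a ≤ a') (hℓ' : 0 < ℓ') (he : a' + ℓ' ≤ a + ℓ) : A θ c k i j a' ℓ' = haar k i (u θ c j a) := by
  unfold A av
  have e : ∫ x in a'..(a' + ℓ'), haar k i (u θ c j x) = ∫ x in a'..(a' + ℓ'), haar k i (u θ c j a) := by
    refine intervalIntegral.integral_congr fun x hx => ?_
    rw [uIcc_of_le (by linarith)] at hx
    exact haar_const h hk i hj ⟨ha.trans hx.1, hx.2.trans he⟩
  rw [e, intervalIntegral.integral_const, add_sub_cancel_left, smul_eq_mul]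
  field_simp

/-- the sum of the first `n` values and the martingale -/
theorem sum_sub_M (hθ : 1 < θ) {n r K : ℕ} {a ℓ : ℝ} (hw : 1 ≤ θ ^ n * ℓ) (hℓ : 0 < ℓ) (h : NB θ c n r K a ℓ) {k : ℕ}
    (hk : k < K) (i : ℕ) {x : ℝ} (hx : x ∈ Icc a (a + ℓ)) :
    |∑ j ∈ Finset.range n, haar k i (u θ c j x) - M θ c k i a ℓ| ≤ 2 * r + θ / (θ - 1) := by
  have h1 := M_tail (c := c) hθ k i (le_refl n) (a := a) hw
  rw [Nat.sub_self, pow_zero, mul_one] at h1
  have h3 : (1 / 2 : ℝ) ^ k * (θ / (θ - 1)) ≤ θ / (θ - 1) := by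
    have h4 : 0 ≤ θ / (θ - 1) := div_nonneg (by linarith) (by linarith)
    have h5 : (1 / 2 : ℝ) ^ k ≤ 1 := pow_le_one₀ (by norm_num) (by norm_num)
    calc (1 / 2 : ℝ) ^ k * (θ / (θ - 1)) ≤ 1 * (θ / (θ - 1)) := mul_le_mul_of_nonneg_right h5 h4
      _ = _ := one_mul _
  have h2 : |∑ j ∈ Finset.range n, (haar k i (u θ c j x) - A θ c k i j a ℓ)| ≤ 2 * r := by
    refine (Finset.abs_sum_le_sum_abs _ _).trans ?_
    have hb : ∀ j ∈ Finset.range n, |haar k i (u θ c j x) - A θ c k i j a ℓ| ≤ if n ≤ j + r then (2:ℝ) else 0 := by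
      intro j _
      split_ifs with hj
      · have b1 := haar_abs k i (u θ c j x)
        have b2 := A_le_one (θ := θ) (c := c) k i j (a := a) hℓ
        exact (abs_sub _ _).trans (by linarith)
      · push Not at hj
        rw [haar_const h hk i hj hx, A_const h hk i hj le_rfl hℓ le_rfl, sub_self, abs_zero]
    refine (Finset.sum_le_sum hb).trans ?_
    rw [← Finset.sum_filter, Finset.sum_const, nsmul_eq_mul, mul_comm]
    refine mul_le_mul_of_nonneg_left ?_ zero_le_two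
    have hsub : (Finset.range n).filter (fun j => n ≤ j + r) ⊆ Finset.Ico (n - r) n := by
      intro j hj
      rw [Finset.mem_filter, Finset.mem_range] at hj
      rw [Finset.mem_Ico]
      omega
    have hc := Finset.card_le_card hsub
    rw [Nat.card_Ico] at hc
    have : ((Finset.range n).filter (fun j => n ≤ j + r)).card ≤ r := hc.trans (by omega)
    exact_mod_cast this
  have e : ∑ j ∈ Finset.range n, haar k i (u θ c j x) - M θ c k i a ℓ =
      ∑ j ∈ Finset.range n, (haar k i (u θ c j x) - A θ c k i j a ℓ) -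
        (M θ c k i a ℓ - ∑ j ∈ Finset.range n, A θ c k i j a ℓ) := by
    rw [Finset.sum_sub_distrib]
    ring
  rw [e]
  refine (abs_sub _ _).trans ?_
  linarith

end Pool.Agent.Helper33.LD
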